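import Pool.Agent.Y6.F.Stm

/-!
# EF-CODE: the codes of the modes
-/

set_option autoImplicit false
set_option linter.all false

namespace Pool.Agent.Y710.EF.CODE

open Pool.Agent.Y6.F
open Pool.Agent.Y6.M (Z3 nsq len Md br sgz)

/-! ### mixed radix numbers -/

/-- the value of a sequence of digits -/
def val (R d0 d1 d2 s : ℕ) : ℕ :=
  (((R * (2 * R + 1) + d0) * (2 * R + 1) + d1) * (2 * R + 1) + d2) * 2 + s

theorem val_lo (R d0 d1 d2 s : ℕ) : 2 * (R * (2 * R + 1) ^ 3) ≤ val R d0 d1 d2 s := by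
  unfold val
  have h1 : R * (2 * R + 1) ≤ R * (2 * R + 1) + d0 := Nat.le_add_right _ _
  have h2 : R * (2 * R + 1) * (2 * R + 1) ≤ (R * (2 * R + 1) + d0) * (2 * R + 1) + d1 :=
    (Nat.mul_le_mul_right _ h1).trans (Nat.le_add_right _ _)
  have h3 : R * (2 * R + 1) * (2 * R + 1) * (2 * R + 1) ≤
      ((R * (2 * R + 1) + d0) * (2 * R + 1) + d1) * (2 * R + 1) + d2 :=
    (Nat.mul_le_mul_right _ h2).trans (Nat.le_add_right _ _)
  have e : R * (2 * R + 1) * (2 * R + 1) * (2 * R + 1) = R * (2 * R + 1) ^ 3 := by ring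
  rw [e] at h3
  omega

theorem val_hi {R d0 d1 d2 s : ℕ} (h0 : d0 ≤ 2 * R) (h1 : d1 ≤ 2 * R) (h2 : d2 ≤ 2 * R)
    (hs : s ≤ 1) : val R d0 d1 d2 s < 2 * ((R + 1) * (2 * R + 1) ^ 3) := by
  unfold val
  have a1 : R * (2 * R + 1) + d0 + 1 ≤ (R + 1) * (2 * R + 1) := by
    have : (R + 1) * (2 * R + 1) = R * (2 * R + 1) + (2 * R + 1) := by ring
    omega
  have a2 : (R * (2 * R + 1) + d0) * (2 * R + 1) + d1 + 1 ≤ (R + 1) * (2 * R + 1) * (2 * R + 1) := by
    have h3 := Nat.mul_le_mul_right (2 * R + 1) a1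
    have : (R * (2 * R + 1) + d0 + 1) * (2 * R + 1) =
      (R * (2 * R + 1) + d0) * (2 * R + 1) + (2 * R + 1) := by ring
    omega
  have a3 : ((R * (2 * R + 1) + d0) * (2 * R + 1) + d1) * (2 * R + 1) + d2 + 1 ≤
      (R + 1) * (2 * R + 1) * (2 * R + 1) * (2 * R + 1) := by
    have h3 := Nat.mul_le_mul_right (2 * R + 1) a2
    have : ((R * (2 * R + 1) + d0) * (2 * R + 1) + d1 + 1) * (2 * R + 1) =
      ((R * (2 * R + 1) + d0) * (2 * R + 1) + d1) * (2 * R + 1) + (2 * R + 1) := by ring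
    omega
  have e : (R + 1) * (2 * R + 1) * (2 * R + 1) * (2 * R + 1) = (R + 1) * (2 * R + 1) ^ 3 := by ring
  rw [e] at a3
  omega

theorem dig {B x x' d d' : ℕ} (hd : d < B) (hd' : d' < B) (h : x * B + d = x' * B + d') :
    x = x' ∧ d = d' := by
  have hB : 0 < B := by omega
  have h1 : (x * B + d) / B = x := by
    rw [mul_comm, Nat.mul_add_div hB, Nat.div_eq_of_lt hd, add_zero]
  have h2 : (x' * B + d') / B = x' := by
    rw [mul_comm, Nat.mul_add_div hB, Nat.div_eq_of_lt hd', add_zero]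
  have h3 : x = x' := by rw [← h1, ← h2, h]
  subst h3
  exact ⟨rfl, by omega⟩

theorem val_inj {R d0 d1 d2 s R' d0' d1' d2' s' : ℕ} (h0 : d0 ≤ 2 * R) (h1 : d1 ≤ 2 * R)
    (h2 : d2 ≤ 2 * R) (hs : s ≤ 1) (h0' : d0' ≤ 2 * R') (h1' : d1' ≤ 2 * R')
    (h2' : d2' ≤ 2 * R') (hs' : s' ≤ 1) (h : val R d0 d1 d2 s = val R' d0' d1' d2' s') :
    R = R' ∧ d0 = d0' ∧ d1 = d1' ∧ d2 = d2' ∧ s = s' := by
  have hlt : ∀ {R d0 d1 d2 s R' d0' d1' d2' s' : ℕ}, d0 ≤ 2 * R → d1 ≤ 2 * R → d2 ≤ 2 * R →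
      s ≤ 1 → val R d0 d1 d2 s = val R' d0' d1' d2' s' → ¬ R < R' := by
    intro R d0 d1 d2 s R' d0' d1' d2' s' h0 h1 h2 hs h hR
    have a1 := val_hi h0 h1 h2 hs
    have a2 := val_lo R' d0' d1' d2' s'
    have a3 : (R + 1) * (2 * R + 1) ^ 3 ≤ R' * (2 * R' + 1) ^ 3 :=
      Nat.mul_le_mul hR (Nat.pow_le_pow_left (by omega) 3)
    omega
  have hR : R = R' := le_antisymm (not_lt.1 (hlt h0' h1' h2' hs' h.symm))
    (not_lt.1 (hlt h0 h1 h2 hs h))
  subst hR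
  unfold val at h
  obtain ⟨e1, e2⟩ := dig (B := 2) (by omega) (by omega) h
  obtain ⟨e3, e4⟩ := dig (B := 2 * R + 1) (by omega) (by omega) e1
  obtain ⟨e5, e6⟩ := dig (B := 2 * R + 1) (by omega) (by omega) e3
  obtain ⟨-, e8⟩ := dig (B := 2 * R + 1) (by omega) (by omega) e5
  exact ⟨rfl, e8, e6, e4, e2⟩

/-! ### frequencies -/

theorem rk_ge (k : Z3) : (k 0).natAbs ≤ rk k ∧ (k 1).natAbs ≤ rk k ∧ (k 2).natAbs ≤ rk k := by
  unfold rk
  refine ⟨le_max_left _ _, ?_, ?_⟩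
  · exact (le_max_left _ _).trans (le_max_right _ _)
  · exact (le_max_right _ _).trans (le_max_right _ _)

theorem rk_eq (k : Z3) : rk k = (k 0).natAbs ∨ rk k = (k 1).natAbs ∨ rk k = (k 2).natAbs := by
  unfold rk
  rcases max_choice (k 0).natAbs (max (k 1).natAbs (k 2).natAbs) with h | h
  · exact Or.inl h
  · rw [h]
    rcases max_choice (k 1).natAbs (k 2).natAbs with h | h
    · exact Or.inr (Or.inl h)
    · exact Or.inr (Or.inr h)

theorem code_eq (k : Z3) (s : Bool) : code k s = val (rk k) (k 0 + rk k).toNat (k 1 + rk k).toNat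
    (k 2 + rk k).toNat (if s then 1 else 0) := rfl

theorem dle (k : Z3) : (k 0 + rk k).toNat ≤ 2 * rk k ∧ (k 1 + rk k).toNat ≤ 2 * rk k ∧
    (k 2 + rk k).toNat ≤ 2 * rk k := by
  obtain ⟨h0, h1, h2⟩ := rk_ge k
  refine ⟨?_, ?_, ?_⟩ <;> omega

theorem sle (s : Bool) : (if s then 1 else 0 : ℕ) ≤ 1 := by
  cases s <;> simp

theorem code_inj {k k' : Z3} {s s' : Bool} (h : code k s = code k' s') : k = k' ∧ s = s' := by
  rw [code_eq, code_eq] at h
  obtain ⟨a0, a1, a2⟩ := dle k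
  obtain ⟨b0, b1, b2⟩ := dle k'
  obtain ⟨e1, e2, e3, e4, e5⟩ := val_inj a0 a1 a2 (sle s) b0 b1 b2 (sle s') h
  obtain ⟨h0, h1, h2⟩ := rk_ge k
  obtain ⟨g0, g1, g2⟩ := rk_ge k'
  have key : ∀ (R R' : ℕ) (x x' : ℤ), R = R' → (x + R).toNat = (x' + R').toNat →
      x.natAbs ≤ R → x'.natAbs ≤ R' → x = x' := by
    intro R R' x x' h1 h2 h3 h4
    omega
  have f0 := key _ _ _ _ e1 e2 h0 g0
  have f1 := key _ _ _ _ e1 e3 h1 g1
  have f2 := key _ _ _ _ e1 e4 h2 g2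
  refine ⟨?_, ?_⟩
  · funext j
    fin_cases j
    · exact f0
    · exact f1
    · exact f2
  · clear h e1 e2 e3 e4 f0 f1 f2 key
    cases s <;> cases s' <;> simp_all

/-- the square of the length as a natural number -/
def Nn (k : Z3) : ℕ := (k 0).natAbs ^ 2 + (k 1).natAbs ^ 2 + (k 2).natAbs ^ 2

theorem nsq_eq (k : Z3) : nsq k = (Nn k : ℤ) := by
  unfold nsq Nn
  rw [Fin.sum_univ_three]
  push_cast
  rw [sq_abs, sq_abs, sq_abs]

theorem rk_pos {k : Z3} (hk : k ≠ 0) : 1 ≤ rk k := by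
  by_contra h
  obtain ⟨h0, h1, h2⟩ := rk_ge k
  apply hk
  funext j
  fin_cases j
  · show k 0 = 0
    omega
  · show k 1 = 0
    omega
  · show k 2 = 0
    omega

theorem Nn_ge (k : Z3) : rk k ^ 2 ≤ Nn k := by
  unfold Nn
  rcases rk_eq k with h | h | h <;> rw [h] <;> omega

theorem Nn_le (k : Z3) : Nn k ≤ 3 * rk k ^ 2 := by
  unfold Nn
  obtain ⟨h0, h1, h2⟩ := rk_ge k
  have g0 := Nat.pow_le_pow_left h0 2
  have g1 := Nat.pow_le_pow_left h1 2
  have g2 := Nat.pow_le_pow_left h2 2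
  omega

theorem code_lo (k : Z3) (s : Bool) : Nn k ^ 2 ≤ code k s := by
  rw [code_eq]
  refine le_trans ?_ (val_lo _ _ _ _ _)
  calc Nn k ^ 2 ≤ (3 * rk k ^ 2) ^ 2 := Nat.pow_le_pow_left (Nn_le k) 2
    _ = 9 * rk k ^ 4 := by ring
    _ ≤ 16 * rk k ^ 4 := Nat.mul_le_mul_right _ (by norm_num)
    _ = 2 * (rk k * (2 * rk k) ^ 3) := by ring
    _ ≤ 2 * (rk k * (2 * rk k + 1) ^ 3) := by
      refine Nat.mul_le_mul_left _ (Nat.mul_le_mul_left _ (Nat.pow_le_pow_left (by omega) 3))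

theorem code_hi {k : Z3} (hk : k ≠ 0) (s : Bool) : code k s ≤ 108 * Nn k ^ 2 := by
  have hR := rk_pos hk
  obtain ⟨a0, a1, a2⟩ := dle k
  rw [code_eq]
  refine (val_hi a0 a1 a2 (sle s)).le.trans ?_
  calc 2 * ((rk k + 1) * (2 * rk k + 1) ^ 3) ≤ 2 * ((2 * rk k) * (3 * rk k) ^ 3) := by
        refine Nat.mul_le_mul_left _ (Nat.mul_le_mul (by omega) (Nat.pow_le_pow_left (by omega) 3))
    _ = 108 * (rk k ^ 2) ^ 2 := by ring
    _ ≤ 108 * Nn k ^ 2 := Nat.mul_le_mul_left _ (Nat.pow_le_pow_left (Nn_ge k) 2)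

theorem Nn_neg (k : Z3) : Nn (-k) = Nn k := by
  unfold Nn
  simp

theorem Nn_pos {k : Z3} (hk : k ≠ 0) : 1 ≤ Nn k := by
  have h1 := Nn_ge k
  have h2 := Nat.pow_le_pow_left (rk_pos hk) 2
  omega

/-! ### signs -/

theorem sgz_neg (k : Z3) : sgz (-k) = -sgz k := by
  unfold sgz
  simp only [Pi.neg_apply, ne_eq, neg_eq_zero, Int.sign_neg]
  split_ifs <;> rfl

theorem sgz_one {k : Z3} (hk : k ≠ 0) : sgz k = 1 ∨ sgz k = -1 := by
  unfold sgz
  have hs : ∀ x : ℤ, x ≠ 0 → x.sign = 1 ∨ x.sign = -1 := by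
    intro x hx
    rcases lt_or_gt_of_ne hx with h | h
    · exact Or.inr (Int.sign_eq_neg_one_of_neg h)
    · exact Or.inl (Int.sign_eq_one_of_pos h)
  by_cases h0 : k 0 ≠ 0
  · rw [if_pos h0]
    exact hs _ h0
  · rw [if_neg h0]
    by_cases h1 : k 1 ≠ 0
    · rw [if_pos h1]
      exact hs _ h1
    · rw [if_neg h1]
      apply hs
      intro h2
      apply hk
      rw [not_not] at h0 h1
      funext j
      fin_cases j
      · exact h0
      · exact h1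
      · exact h2

theorem cd_eq (i : Md) : ∃ k : Z3, (k = i.1.1 ∨ k = -i.1.1) ∧ k ≠ 0 ∧ Nn k = Nn i.1.1 ∧
    cd i = code k i.2 := by
  unfold cd
  by_cases h : sgz i.1.1 = 1
  · exact ⟨i.1.1, Or.inl rfl, i.1.2, rfl, if_pos h⟩
  · exact ⟨-i.1.1, Or.inr rfl, neg_ne_zero.2 i.1.2, Nn_neg _, if_neg h⟩

theorem cd_br (i : Md) : cd (br i) = cd i := by
  unfold cd br
  simp only [sgz_neg, neg_neg]
  rcases sgz_one i.1.2 with h | h
  · rw [if_pos h, h, if_neg (by norm_num)]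
  · rw [h, if_pos (by norm_num), if_neg (by norm_num)]

/-! ### lengths -/

/-- the vector -/
noncomputable def vec (k : Z3) : EuclideanSpace ℝ (Fin 3) := WithLp.toLp 2 (fun j => (k j : ℝ))

theorem len_eq (k : Z3) : len k = ‖vec k‖ := by
  rw [EuclideanSpace.norm_eq]
  unfold len nsq
  congr 1
  push_cast
  refine Finset.sum_congr rfl fun j _ => ?_
  show (k j : ℝ) ^ 2 = ‖(k j : ℝ)‖ ^ 2
  rw [Real.norm_eq_abs, sq_abs]

theorem len_add (k l : Z3) : len (k + l) ≤ len k + len l := by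
  rw [len_eq, len_eq, len_eq]
  have h : vec (k + l) = vec k + vec l := by
    ext j
    show ((k j + l j : ℤ) : ℝ) = (k j : ℝ) + (l j : ℝ)
    push_cast
    rfl
  rw [h]
  exact norm_add_le _ _

theorem len_neg (k : Z3) : len (-k) = len k := by
  unfold len nsq
  simp

theorem len_sq (k : Z3) : len k ^ 2 = (Nn k : ℝ) := by
  unfold len
  rw [nsq_eq, Real.sq_sqrt]
  · push_cast
    rfl
  · push_cast
    exact Nat.cast_nonneg _

theorem t_CODE : S_CODE := by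
  refine ⟨?_, ?_, cd_br, ?_, ?_, ?_⟩
  · intro i
    obtain ⟨k, -, hk, hN, hc⟩ := cd_eq i
    have e : ln i ^ 4 = ((Nn k ^ 2 : ℕ) : ℝ) := by
      rw [hN]
      push_cast
      rw [← len_sq]
      unfold ln
      ring
    rw [e, hc]
    refine ⟨?_, ?_⟩
    · exact_mod_cast code_lo k i.2
    · exact_mod_cast code_hi hk i.2
  · intro i j h
    obtain ⟨k, hk1, -, -, hc⟩ := cd_eq i
    obtain ⟨l, hl1, -, -, hd⟩ := cd_eq j
    rw [hc, hd] at h
    obtain ⟨e1, e2⟩ := code_inj h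
    subst e1
    have key : j.1.1 = i.1.1 ∨ j.1.1 = -i.1.1 := by
      rcases hk1 with hk1 | hk1 <;> rcases hl1 with hl1 | hl1
      · left; rw [← hl1, hk1]
      · right; rw [← hk1, hl1, neg_neg]
      · right; rw [← hl1, hk1]
      · left; rw [hk1] at hl1; exact (neg_injective hl1).symm
    rcases key with h | h
    · left
      exact Prod.ext (Subtype.ext h) e2.symm
    · right
      exact Prod.ext (Subtype.ext h) e2.symm
  · intro i
    obtain ⟨k, -, hk, hN, hc⟩ := cd_eq i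
    rw [nsq_eq, hc, ← hN]
    have h1 := code_lo k i.2
    have h2 := Nn_pos hk
    have h3 : Nn k ≤ Nn k ^ 2 := by nlinarith
    exact_mod_cast h3.trans h1
  · intro i
    have h1 : ln i ^ 2 = (Nn i.1.1 : ℝ) := len_sq _
    have h2 : (1 : ℝ) ≤ Nn i.1.1 := by exact_mod_cast Nn_pos i.1.2
    have h3 : 0 ≤ ln i := Real.sqrt_nonneg _
    refine ⟨by nlinarith, ?_⟩
    rw [h1, nsq_eq]
    push_cast
    rfl
  · intro i a b h
    have e1 : ln i = len (a.1.1 + b.1.1) := by rw [h]; rfl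
    have e2 : ln a = len (i.1.1 + -b.1.1) := by
      rw [← h]
      unfold ln
      congr 1
      abel
    have e3 : ln b = len (i.1.1 + -a.1.1) := by
      rw [← h]
      unfold ln
      congr 1
      abel
    refine ⟨?_, ?_, ?_⟩
    · rw [e1]
      exact len_add _ _
    · rw [e2]
      refine (len_add _ _).trans ?_
      rw [len_neg]
      exact le_rfl
    · rw [e3]
      refine (len_add _ _).trans ?_
      rw [len_neg]
      exact le_rfl

end Pool.Agent.Y710.EF.CODE
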